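import Pool.Agent.Lib.EF_h73.Vol
import Pool.Agent.Lib.MP_ef2672_gt_Tauber.Expurgate

/-!
MP_ef2672: lattice points in dilated ellipsoids (upper bounds from the volume), fibres of the
random gluing map, and the sum of a Gaussian over integer points.
-/

namespace Pool.Agent.Lib.EF_h73

open MeasureTheory Filter Topology Matrix
open Pool.Agent.Lib.MP_ef2672_gt_Tauber

lemma convexOn_qf {n : ℕ} (A : Matrix (Fin n) (Fin n) ℝ) : ConvexOn ℝ Set.univ (qf A) := by
  have h1 : ∀ i : Fin n, ConvexOn ℝ Set.univ (fun x : Fin n → ℝ => (A.mulVec x) i ^ 2) := by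
    intro i
    have h := (even_two.convexOn_pow (𝕜 := ℝ)).comp_linearMap
      ((LinearMap.proj i : (Fin n → ℝ) →ₗ[ℝ] ℝ).comp (Matrix.toLin' A))
    exact h
  have h2 : ∀ s : Finset (Fin n),
      ConvexOn ℝ Set.univ (fun x : Fin n → ℝ => ∑ i ∈ s, (A.mulVec x) i ^ 2) := by
    classical
    intro s
    induction s using Finset.induction_on with
    | empty => simpa using convexOn_const (0 : ℝ) convex_univ
    | insert a s ha ih =>
      have : (fun x : Fin n → ℝ => ∑ i ∈ insert a s, (A.mulVec x) i ^ 2) =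
          (fun x : Fin n → ℝ => (A.mulVec x) a ^ 2) +
            fun x : Fin n → ℝ => ∑ i ∈ s, (A.mulVec x) i ^ 2 := by
        ext x
        rw [Finset.sum_insert ha]
        rfl
      rw [this]
      exact (h1 a).add ih
  exact h2 Finset.univ

lemma isBounded_ell {n : ℕ} (A : Matrix (Fin n) (Fin n) ℝ) (hA : A.det ≠ 0) (r : ℝ) :
    Bornology.IsBounded {x : Fin n → ℝ | qf A x < r} := by
  have h1 : {x : Fin n → ℝ | qf A x < r} ⊆
      (Matrix.toLin' A⁻¹).toContinuousLinearMap '' Metric.closedBall 0 (|r| + 1) := by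
    intro x hx
    refine ⟨A.mulVec x, ?_, ?_⟩
    · rw [mem_closedBall_zero_iff, pi_norm_le_iff_of_nonneg (by positivity)]
      intro i
      rw [Real.norm_eq_abs]
      have h2 : (A.mulVec x) i ^ 2 ≤ qf A x :=
        Finset.single_le_sum (f := fun i => (A.mulVec x) i ^ 2) (fun j _ => sq_nonneg _)
          (Finset.mem_univ i)
      have h3 : qf A x < r := hx
      refine abs_le_of_sq_le_sq ?_ (by positivity)
      have h4 : r ≤ |r| := le_abs_self r
      have h5 := abs_nonneg r
      nlinarith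
    · rw [LinearMap.coe_toContinuousLinearMap', Matrix.toLin'_apply, Matrix.mulVec_mulVec,
        Matrix.nonsing_inv_mul _ (isUnit_iff_ne_zero.2 hA), Matrix.one_mulVec]
  refine Bornology.IsBounded.subset ?_ h1
  exact (ContinuousLinearMap.lipschitz _).isBounded_image Metric.isBounded_closedBall

/-- The number of integer vectors in the dilated ellipsoid. -/
noncomputable def cnt {n : ℕ} (A : Matrix (Fin n) (Fin n) ℝ) (r : ℝ) (q : ℕ) : ℕ :=
  {y : Fin n → ℤ | qf A (fun i => (y i : ℝ)) < (q : ℝ) ^ 2 * r}.ncard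

lemma finite_cnt {n : ℕ} (A : Matrix (Fin n) (Fin n) ℝ) (hA : A.det ≠ 0) (r : ℝ) :
    {y : Fin n → ℤ | qf A (fun i => (y i : ℝ)) < r}.Finite := by
  refine ((finite_short A hA r).union (Set.finite_singleton 0)).subset ?_
  intro y hy
  by_cases h : y = 0
  · exact Or.inr h
  · exact Or.inl ⟨h, hy⟩

lemma cnt_tendsto {n : ℕ} (A : Matrix (Fin n) (Fin n) ℝ) (hA : A.det ≠ 0) (r : ℝ) :
    Tendsto (fun q : ℕ => (cnt A r q : ℝ) / (q : ℝ) ^ n) atTop
      (𝓝 (volume.real {x : Fin n → ℝ | qf A x < r})) := by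
  have hconv : Convex ℝ {x : Fin n → ℝ | qf A x < r} := by
    have := (convexOn_qf A).convex_lt r
    simpa using this
  have hmeas : MeasurableSet {x : Fin n → ℝ | qf A x < r} :=
    (isOpen_lt (continuous_qf A) continuous_const).measurableSet
  have h := tendsto_card_div_pow_atTop_volume {x : Fin n → ℝ | qf A x < r}
    (isBounded_ell A hA r) hmeas (hconv.addHaar_frontier volume)
  rw [Fintype.card_fin] at h
  refine h.congr' ?_
  filter_upwards [eventually_gt_atTop 0] with q hq
  have hne : NeZero q := ⟨hq.ne'⟩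
  have hq0 : (0 : ℝ) < q := by exact_mod_cast hq
  congr 2
  unfold cnt
  rw [← Nat.card_coe_set_eq]
  symm
  refine Nat.card_congr (Equiv.ofBijective (fun y => ⟨fun i => (q : ℝ)⁻¹ * (y.1 i : ℝ), ?_, ?_⟩)
    ⟨?_, ?_⟩)
  · have hy : qf A (fun i => (y.1 i : ℝ)) < (q : ℝ) ^ 2 * r := y.2
    have h1 : (fun i => (q : ℝ)⁻¹ * (y.1 i : ℝ)) = (q : ℝ)⁻¹ • (fun i => (y.1 i : ℝ)) := by
      ext i; simp
    show qf A (fun i => (q : ℝ)⁻¹ * (y.1 i : ℝ)) < r
    rw [h1, qf_smul, inv_pow, inv_mul_lt_iff₀ (by positivity)]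
    exact hy
  · rw [← Submodule.coe_pointwise_smul, SetLike.mem_coe,
      BoxIntegral.unitPartition.mem_smul_span_iff]
    intro i
    refine ⟨y.1 i, ?_⟩
    rw [eq_intCast]
    field_simp
  · intro y z hyz
    have h1 := congrArg Subtype.val hyz
    ext i
    have h2 := congrFun h1 i
    simp only at h2
    have h3 := mul_left_cancel₀ (inv_ne_zero hq0.ne') h2
    exact_mod_cast h3
  · rintro ⟨x, hx1, hx2⟩
    rw [← Submodule.coe_pointwise_smul, SetLike.mem_coe,
      BoxIntegral.unitPartition.mem_smul_span_iff] at hx2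
    choose y hy using hx2
    have hxy : x = (q : ℝ)⁻¹ • (fun i => (y i : ℝ)) := by
      ext i
      have := hy i
      rw [eq_intCast] at this
      simp only [Pi.smul_apply, smul_eq_mul]
      rw [this]
      field_simp
    refine ⟨⟨y, ?_⟩, ?_⟩
    · show qf A (fun i => (y i : ℝ)) < (q : ℝ) ^ 2 * r
      have h1 : qf A x < r := hx1
      rw [hxy, qf_smul, inv_pow, inv_mul_lt_iff₀ (by positivity)] at h1
      exact h1
    · ext i
      simp only
      rw [hxy]
      simp

/-- All fibres of `T ↦ T u` have the same cardinality. -/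
lemma card_fiber {n k q : ℕ} [Fact q.Prime] (u : Fin k → ZMod q) (hu : u ≠ 0)
    (B : Finset (Fin n → ZMod q)) :
    q ^ n * (Finset.univ.filter fun T : Fin n → Fin k → ZMod q =>
      (fun i => ∑ j, T i j * u j) ∈ B).card =
      (Fintype.card (Fin n → Fin k → ZMod q)) * B.card := by
  classical
  let f : (Fin n → Fin k → ZMod q) →+ (Fin n → ZMod q) :=
    { toFun := fun T i => ∑ j, T i j * u j
      map_zero' := by ext i; simp
      map_add' := by
        intro S T
        ext i
        simp only [Pi.add_apply]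
        rw [← Finset.sum_add_distrib]
        exact Finset.sum_congr rfl fun j _ => by rw [add_mul] }
  have hf : Function.Surjective f := by
    obtain ⟨l, hl⟩ : ∃ l, u l ≠ 0 := by
      by_contra hcon
      push Not at hcon
      exact hu (funext hcon)
    intro y
    refine ⟨fun i => Pi.single l (y i * (u l)⁻¹), ?_⟩
    ext i
    show ∑ j, (Pi.single l (y i * (u l)⁻¹) : Fin k → ZMod q) j * u j = y i
    rw [Finset.sum_eq_single l]
    · rw [Pi.single_eq_same, mul_assoc, inv_mul_cancel₀ hl, mul_one]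
    · intro j _ hj
      rw [Pi.single_eq_of_ne hj, zero_mul]
    · simp
  have hfib : ∀ x y : Fin n → ZMod q, (Finset.univ.filter fun T => f T = x).card =
      (Finset.univ.filter fun T => f T = y).card := fun x y =>
    AddMonoidHom.card_fiber_eq_of_mem_range f (hf x) (hf y)
  have hsum : ∀ C : Finset (Fin n → ZMod q), (Finset.univ.filter fun T => f T ∈ C).card =
      C.card * (Finset.univ.filter fun T => f T = 0).card := by
    intro C
    rw [Finset.card_eq_sum_card_fiberwise (f := f) (t := C) (fun T hT => by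
      have := Finset.mem_coe.1 hT
      exact (Finset.mem_filter.1 this).2), ← smul_eq_mul, ← Finset.sum_const]
    refine Finset.sum_congr rfl fun y hy => ?_
    rw [← hfib y 0]
    congr 1
    ext T
    simp only [Finset.mem_filter, Finset.mem_univ, true_and]
    constructor
    · exact fun h => h.2
    · exact fun h => ⟨h ▸ hy, h⟩
  have h1 := hsum Finset.univ
  have h2 : (Finset.univ.filter fun T : Fin n → Fin k → ZMod q =>
      f T ∈ (Finset.univ : Finset (Fin n → ZMod q))) = Finset.univ := by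
    ext T; simp
  rw [h2, Finset.card_univ, Finset.card_univ, Fintype.card_fun (α := Fin n) (β := ZMod q),
    ZMod.card, Fintype.card_fin] at h1
  have h3 := hsum B
  show q ^ n * (Finset.univ.filter fun T => f T ∈ B).card = _
  rw [h3, h1]
  ring

/-- One-dimensional Gaussian sums. -/
lemma gauss_sum_le (t : ℝ) (ht : 0 < t) (N : ℕ) :
    ∑ j ∈ Finset.Icc (-(N : ℤ)) N, Real.exp (-t * (j : ℝ) ^ 2) ≤ 1 + Real.sqrt (Real.pi / t) := by
  have hanti : AntitoneOn (fun x : ℝ => Real.exp (-t * x ^ 2)) (Set.Icc 0 (0 + (N : ℝ))) := by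
    intro x hx y hy hxy
    refine Real.exp_le_exp.2 ?_
    have h0 : 0 ≤ x := hx.1
    have h1 : x ^ 2 ≤ y ^ 2 := pow_le_pow_left₀ h0 hxy 2
    nlinarith
  have h1 := hanti.sum_le_integral
  have h2 : ∫ x in (0 : ℝ)..0 + (N : ℝ), Real.exp (-t * x ^ 2) ≤ Real.sqrt (Real.pi / t) / 2 := by
    rw [← integral_gaussian_Ioi, zero_add, intervalIntegral.integral_of_le (by positivity)]
    refine setIntegral_mono_set ?_ ?_ ?_
    · exact (integrable_exp_neg_mul_sq ht).integrableOn
    · exact Filter.Eventually.of_forall fun x => (Real.exp_pos _).le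
    · exact (Set.Ioc_subset_Ioi_self).eventuallyLE
  have h3 : ∑ j ∈ Finset.Icc (-(N : ℤ)) N, Real.exp (-t * (j : ℝ) ^ 2) =
      1 + 2 * ∑ i ∈ Finset.range N, Real.exp (-t * (0 + ((i + 1 : ℕ) : ℝ)) ^ 2) := by
    clear h1 h2 hanti
    induction N with
    | zero => simp
    | succ N ih =>
      have h4 : Finset.Icc (-((N + 1 : ℕ) : ℤ)) ((N + 1 : ℕ) : ℤ) =
          insert (-((N + 1 : ℕ) : ℤ)) (insert ((N + 1 : ℕ) : ℤ)
            (Finset.Icc (-(N : ℤ)) (N : ℤ))) := by
        ext x
        simp only [Finset.mem_insert, Finset.mem_Icc]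
        push_cast
        omega
      rw [h4, Finset.sum_insert, Finset.sum_insert, ih, Finset.sum_range_succ]
      · push_cast
        ring_nf
      · rw [Finset.mem_Icc]
        push_cast
        omega
      · rw [Finset.mem_insert, Finset.mem_Icc]
        push_cast
        omega
  rw [h3]
  linarith

/-- Gaussian sums over integer vectors. -/
lemma gauss_box_le (k : ℕ) (t : ℝ) (ht : 0 < t) (N : ℕ) :
    ∑ u ∈ Fintype.piFinset (fun _ : Fin k => Finset.Icc (-(N : ℤ)) N),
      Real.exp (-t * ∑ i, (u i : ℝ) ^ 2) ≤ (1 + Real.sqrt (Real.pi / t)) ^ k := by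
  have h1 : ∀ u : Fin k → ℤ, Real.exp (-t * ∑ i, (u i : ℝ) ^ 2) =
      ∏ i, Real.exp (-t * (u i : ℝ) ^ 2) := by
    intro u
    rw [← Real.exp_sum, Finset.mul_sum]
  simp_rw [h1]
  rw [← Finset.prod_univ_sum (fun _ : Fin k => Finset.Icc (-(N : ℤ)) N)
    (fun _ j => Real.exp (-t * (j : ℝ) ^ 2)), Finset.prod_const, Finset.card_univ,
    Fintype.card_fin]
  refine pow_le_pow_left₀ (Finset.sum_nonneg fun _ _ => (Real.exp_pos _).le) ?_ k
  exact gauss_sum_le t ht N

end Pool.Agent.Lib.EF_h73
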