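import Pool.Agent.Lib.EF_h73.Main

/-!
MP_ef2672: the relative entropy inequality for Hermite's constants.
-/

namespace Pool.Agent.Lib.EF_h73

open MeasureTheory Filter Topology
open Pool.Agent.Lib.MP_ef2672_gt_Tauber

/-- The value `1/(2πe)` of the Minkowski-Hlawka bound. -/
noncomputable def c0 : ℝ := 1 / (2 * Real.pi * Real.exp 1)

/-- The relative entropy (Kullback-Leibler divergence) of the Bernoulli laws with success
probabilities `u` and `v`. -/
noncomputable def relEntropy (u v : ℝ) : ℝ :=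
  u * Real.log (u / v) + (1 - u) * Real.log ((1 - u) / (1 - v))

lemma c0_pos : 0 < c0 := by unfold c0; positivity

/-- **The relative entropy inequality.** -/
theorem relEntropy_le {n m : ℕ} (hn : 0 < n) (hnm : n ≤ m) (h : (m : ℝ) * c0 ≤ n * c n) :
    relEntropy ((n : ℝ) / m) (c0 / c n) ≤ Real.log (c m / c0) := by
  have hn0 : (0 : ℝ) < n := by exact_mod_cast hn
  have hm : 0 < m := lt_of_lt_of_le hn hnm
  have hm0 : (0 : ℝ) < m := by exact_mod_cast hm
  have hc0 := c0_pos
  have hcn : (n : ℝ) * c n = gamma n := by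
    unfold c; field_simp
  have hg0 : 0 < gamma n := by
    rw [hcn] at h
    exact lt_of_lt_of_le (by positivity) h
  have hcn0 : 0 < c n := by
    unfold c; positivity
  have hcm0 : 0 < c m := c_pos hm
  have hgm0 : 0 < gamma m := by
    have := hcm0
    unfold c at this
    exact (div_pos_iff_of_pos_right hm0).1 this
  rcases hnm.eq_or_lt with rfl | hlt
  · unfold relEntropy
    rw [div_self hn0.ne', sub_self, zero_mul, add_zero, one_mul, one_div_div]
  · obtain ⟨k, rfl⟩ : ∃ k, m = n + k := ⟨m - n, by omega⟩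
    have hk : 0 < k := by omega
    have hk0 : (0 : ℝ) < k := by exact_mod_cast hk
    have hE : 0 < 2 * Real.pi * Real.exp 1 := by positivity
    have hE1 : 2 * Real.pi * Real.exp 1 = 1 / c0 := by
      unfold c0; rw [one_div_one_div]
    have h1 : (n : ℝ) + k ≤ 2 * Real.pi * Real.exp 1 * gamma n := by
      rw [hcn] at h
      rw [hE1, one_div, inv_mul_eq_div, le_div_iff₀ hc0]
      push_cast at h
      exact h
    have h2 := gamma_pow_le hn hk h1
    set a : ℝ := 1 - n / (2 * Real.pi * Real.exp 1 * gamma n) with ha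
    have ha0 : 0 < a := by
      rw [ha, sub_pos, div_lt_one (by positivity)]
      linarith
    have ha' : 1 - c0 / c n = a := by
      rw [ha, hE1]
      unfold c
      field_simp
    have h3 := Real.log_le_log (pow_pos hg0 n) h2
    have hX : 2 * Real.pi * Real.exp 1 * a / k = a / (k * c0) := by
      rw [hE1]; field_simp
    rw [hX, Real.log_mul (by positivity) (by positivity), Real.log_pow, Real.log_pow,
      Real.log_pow, Real.log_div ha0.ne' (by positivity), Real.log_mul hk0.ne' hc0.ne'] at h3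
    unfold relEntropy
    rw [ha']
    have hu : 1 - (n : ℝ) / ((n + k : ℕ) : ℝ) = k / ((n + k : ℕ) : ℝ) := by
      push_cast
      field_simp
      ring
    rw [hu]
    have e1 : Real.log ((n : ℝ) / ((n + k : ℕ) : ℝ) / (c0 / c n)) =
        Real.log (gamma n) - Real.log ((n + k : ℕ) : ℝ) - Real.log c0 := by
      have : (n : ℝ) / ((n + k : ℕ) : ℝ) / (c0 / c n) = gamma n / ((n + k : ℕ) : ℝ) / c0 := by
        rw [← hcn]; field_simp
      rw [this, Real.log_div (by positivity) hc0.ne', Real.log_div hg0.ne' hm0.ne']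
    have e2 : Real.log ((k : ℝ) / ((n + k : ℕ) : ℝ) / a) =
        Real.log k - Real.log ((n + k : ℕ) : ℝ) - Real.log a := by
      rw [Real.log_div (by positivity) ha0.ne', Real.log_div hk0.ne' hm0.ne']
    have e3 : Real.log (c (n + k) / c0) =
        Real.log (gamma (n + k)) - Real.log ((n + k : ℕ) : ℝ) - Real.log c0 := by
      unfold c
      rw [Real.log_div (by positivity) hc0.ne', Real.log_div hgm0.ne' hm0.ne']
    rw [e1, e2, e3]
    have e4 : ((n : ℝ) / ((n + k : ℕ) : ℝ)) *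
        (Real.log (gamma n) - Real.log ((n + k : ℕ) : ℝ) - Real.log c0) +
        (k : ℝ) / ((n + k : ℕ) : ℝ) *
        (Real.log k - Real.log ((n + k : ℕ) : ℝ) - Real.log a) =
        (n * (Real.log (gamma n) - Real.log ((n + k : ℕ) : ℝ) - Real.log c0) +
        k * (Real.log k - Real.log ((n + k : ℕ) : ℝ) - Real.log a)) / ((n + k : ℕ) : ℝ) := by
      ring
    rw [e4, div_le_iff₀ hm0]
    push_cast at h3 ⊢
    nlinarith [h3]

/-- Relative entropy is at least the squared Hellinger distance. -/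
lemma relEntropy_ge {u v : ℝ} (hu0 : 0 < u) (hu1 : u ≤ 1) (hv0 : 0 < v) (hv1 : v < 1) :
    (Real.sqrt u - Real.sqrt v) ^ 2 ≤ relEntropy u v := by
  have hlog : ∀ z : ℝ, 0 < z → Real.log z ≤ 2 * (Real.sqrt z - 1) := by
    intro z hz
    have h1 : Real.log z = 2 * Real.log (Real.sqrt z) := by
      rw [Real.log_sqrt hz.le]; ring
    rw [h1]
    have := Real.log_le_sub_one_of_pos (Real.sqrt_pos.2 hz)
    linarith
  have h1 : 2 * u - 2 * (Real.sqrt u * Real.sqrt v) ≤ u * Real.log (u / v) := by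
    have h2 := hlog (v / u) (by positivity)
    have h3 : Real.log (u / v) = -Real.log (v / u) := by
      rw [← Real.log_inv, inv_div]
    rw [h3]
    have h4 : u * Real.sqrt (v / u) = Real.sqrt u * Real.sqrt v := by
      rw [Real.sqrt_div hv0.le]
      have := Real.mul_self_sqrt hu0.le
      field_simp
      rw [Real.sq_sqrt hu0.le]
    nlinarith
  have h5 : 2 * (1 - u) - 2 * (Real.sqrt (1 - u) * Real.sqrt (1 - v)) ≤
      (1 - u) * Real.log ((1 - u) / (1 - v)) := by
    rcases hu1.eq_or_lt with rfl | hu1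
    · simp
    have hu' : 0 < 1 - u := by linarith
    have hv' : 0 < 1 - v := by linarith
    have h2 := hlog ((1 - v) / (1 - u)) (by positivity)
    have h3 : Real.log ((1 - u) / (1 - v)) = -Real.log ((1 - v) / (1 - u)) := by
      rw [← Real.log_inv, inv_div]
    rw [h3]
    have h4 : (1 - u) * Real.sqrt ((1 - v) / (1 - u)) =
        Real.sqrt (1 - u) * Real.sqrt (1 - v) := by
      rw [Real.sqrt_div hv'.le]
      field_simp
      rw [Real.sq_sqrt hu'.le]
    nlinarith
  have h6 : Real.sqrt (1 - u) * Real.sqrt (1 - v) ≤ ((1 - u) + (1 - v)) / 2 := by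
    have h7 := Real.sq_sqrt (show 0 ≤ 1 - u by linarith)
    have h8 := Real.sq_sqrt (show 0 ≤ 1 - v by linarith)
    nlinarith [sq_nonneg (Real.sqrt (1 - u) - Real.sqrt (1 - v))]
  have h9 := Real.sq_sqrt hu0.le
  have h10 := Real.sq_sqrt hv0.le
  unfold relEntropy
  nlinarith

/-- An excess over the Minkowski-Hlawka value persists. -/
lemma persist {n m : ℕ} (hn : 0 < n) (hnm : n ≤ m) {b θ : ℝ} (hθ : 0 < θ) (hb : θ * c0 < b)
    (hcn : b ≤ c n) (hm : (m : ℝ) ≤ θ * n) :
    c0 * Real.exp ((Real.sqrt (1 / θ) - Real.sqrt (c0 / b)) ^ 2) ≤ c m := by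
  have hn0 : (0 : ℝ) < n := by exact_mod_cast hn
  have hm' : 0 < m := lt_of_lt_of_le hn hnm
  have hm0 : (0 : ℝ) < m := by exact_mod_cast hm'
  have hc0 := c0_pos
  have hb0 : 0 < b := lt_trans (by positivity) hb
  have hcn0 : 0 < c n := lt_of_lt_of_le hb0 hcn
  have hnm' : (n : ℝ) ≤ m := by exact_mod_cast hnm
  have hθ1 : 1 ≤ θ := by
    by_contra hcon
    push Not at hcon
    nlinarith
  have h1 : (m : ℝ) * c0 ≤ n * c n := by
    calc (m : ℝ) * c0 ≤ (θ * n) * c0 := mul_le_mul_of_nonneg_right hm hc0.le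
      _ = n * (θ * c0) := by ring
      _ ≤ n * c n := mul_le_mul_of_nonneg_left (hb.le.trans hcn) hn0.le
  have h2 := relEntropy_le hn hnm h1
  have hu0 : (0 : ℝ) < n / m := by positivity
  have hu1 : (n : ℝ) / m ≤ 1 := by rw [div_le_one hm0]; exact hnm'
  have hv0 : 0 < c0 / c n := by positivity
  have hcb : c0 < b := by nlinarith
  have hv1 : c0 / c n < 1 := by rw [div_lt_one hcn0]; linarith
  have h3 := relEntropy_ge hu0 hu1 hv0 hv1
  have h4 : Real.sqrt (1 / θ) ≤ Real.sqrt (n / m) := by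
    refine Real.sqrt_le_sqrt ?_
    rw [div_le_div_iff₀ hθ hm0]
    linarith
  have h5 : Real.sqrt (c0 / c n) ≤ Real.sqrt (c0 / b) :=
    Real.sqrt_le_sqrt (div_le_div_of_nonneg_left hc0.le hb0 hcn)
  have h6 : Real.sqrt (c0 / b) < Real.sqrt (1 / θ) := by
    refine Real.sqrt_lt_sqrt (by positivity) ?_
    rw [div_lt_div_iff₀ hb0 hθ]
    linarith
  have h7 : (Real.sqrt (1 / θ) - Real.sqrt (c0 / b)) ^ 2 ≤
      (Real.sqrt (n / m) - Real.sqrt (c0 / c n)) ^ 2 :=
    pow_le_pow_left₀ (by linarith) (by linarith) 2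
  have hcm0 : 0 < c m := c_pos hm'
  have h8 : (Real.sqrt (1 / θ) - Real.sqrt (c0 / b)) ^ 2 ≤ Real.log (c m / c0) := by linarith
  have h9 := Real.exp_le_exp.2 h8
  rw [Real.exp_log (by positivity), le_div_iff₀ hc0] at h9
  linarith

lemma isBounded_c : IsBoundedUnder (· ≤ ·) atTop c :=
  isBoundedUnder_of ⟨1, fun n => c_le_one n⟩

lemma isCobounded_c : IsCoboundedUnder (· ≤ ·) atTop c :=
  (isBoundedUnder_of ⟨0, fun n => c_nonneg n⟩ : IsBoundedUnder (· ≥ ·) atTop c).isCoboundedUnder_flip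

/-- Upper density of the dimensions with an excess. -/
theorem density (δ : ℝ) (hδ : δ < 1 - c0 / limsup c atTop) (hl : c0 < limsup c atTop) :
    ∃ η : ℝ, 0 < η ∧ ∃ᶠ N : ℕ in atTop,
      δ * N ≤ {m : ℕ | 0 < m ∧ m ≤ N ∧ (1 + η) * c0 ≤ c m}.ncard := by
  classical
  have hc0 := c0_pos
  set l := limsup c atTop with hldef
  have hl0 : 0 < l := hc0.trans hl
  -- choose `θ`, `b`
  obtain ⟨θ, hθ1, hθ2, hθ3⟩ : ∃ θ : ℝ, 1 < θ ∧ δ < 1 - 1 / θ ∧ θ * c0 < l := by
    have h1 : 1 < l / c0 := by rwa [one_lt_div hc0]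
    have h2 : ∀ᶠ θ in 𝓝[<] (l / c0), δ < 1 - 1 / θ := by
      have hcont : ContinuousAt (fun θ : ℝ => 1 - 1 / θ) (l / c0) := by
        refine continuousAt_const.sub (continuousAt_const.div continuousAt_id ?_)
        positivity
      have h3 : δ < (fun θ : ℝ => 1 - 1 / θ) (l / c0) := by
        simp only [one_div_div]
        exact hδ
      exact (hcont.eventually (lt_mem_nhds h3)).filter_mono nhdsWithin_le_nhds
    have h4 : ∀ᶠ θ in 𝓝[<] (l / c0), 1 < θ :=
      (lt_mem_nhds h1).filter_mono nhdsWithin_le_nhds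
    have h5 : ∀ᶠ θ in 𝓝[<] (l / c0), θ < l / c0 := self_mem_nhdsWithin
    obtain ⟨θ, hθ⟩ := (h2.and (h4.and h5)).exists
    refine ⟨θ, hθ.2.1, hθ.1, ?_⟩
    rw [← lt_div_iff₀ hc0]
    exact hθ.2.2
  obtain ⟨b, hb1, hb2⟩ := exists_between hθ3
  have hθ0 : 0 < θ := by linarith
  have hb0 : 0 < b := lt_trans (by positivity) hb1
  set d : ℝ := (Real.sqrt (1 / θ) - Real.sqrt (c0 / b)) ^ 2 with hd
  have hd0 : 0 < d := by
    have h6 : Real.sqrt (c0 / b) < Real.sqrt (1 / θ) := by
      refine Real.sqrt_lt_sqrt (by positivity) ?_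
      rw [div_lt_div_iff₀ hb0 hθ0]
      linarith
    exact pow_pos (by linarith) 2
  refine ⟨Real.exp d - 1, by linarith [Real.add_one_lt_exp hd0.ne'], ?_⟩
  have hfreq : ∃ᶠ n in atTop, b < c n := frequently_lt_of_lt_limsup isCobounded_c hb2
  -- large `n`
  have hε : 0 < 1 - 1 / θ - δ := by linarith
  rw [frequently_atTop] at hfreq ⊢
  intro N0
  obtain ⟨M, hM⟩ := exists_nat_ge ((|δ| + 2) / (1 - 1 / θ - δ))
  obtain ⟨n, hn1, hn2⟩ := hfreq (max (N0 + 1) (M + 1))
  have hnN : N0 + 1 ≤ n := le_of_max_le_left hn1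
  have hnM : M + 1 ≤ n := le_of_max_le_right hn1
  have hn : 0 < n := by omega
  have hn0 : (0 : ℝ) < n := by exact_mod_cast hn
  set N : ℕ := ⌊θ * n⌋₊ with hN
  have hN1 : (N : ℝ) ≤ θ * n := Nat.floor_le (by positivity)
  have hN2 : θ * n < N + 1 := Nat.lt_floor_add_one _
  have hnN' : n ≤ N := by
    refine Nat.le_floor ?_
    nlinarith
  refine ⟨N, by omega, ?_⟩
  have hsub : (Finset.Icc n N : Set ℕ) ⊆
      {m : ℕ | 0 < m ∧ m ≤ N ∧ (1 + (Real.exp d - 1)) * c0 ≤ c m} := by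
    intro m hm
    rw [Finset.coe_Icc, Set.mem_Icc] at hm
    refine ⟨by omega, hm.2, ?_⟩
    have hmN : (m : ℝ) ≤ θ * n := by
      have : (m : ℝ) ≤ N := by exact_mod_cast hm.2
      linarith
    have := persist hn hm.1 hθ0 hb1 hn2.le hmN
    rw [add_sub_cancel, mul_comm]
    exact this
  have hfin : {m : ℕ | 0 < m ∧ m ≤ N ∧ (1 + (Real.exp d - 1)) * c0 ≤ c m}.Finite :=
    (Set.finite_Iic N).subset fun m hm => hm.2.1
  have hcard := Set.ncard_le_ncard hsub hfin
  rw [Set.ncard_coe_finset, Nat.card_Icc] at hcard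
  have hcard' : (N : ℝ) + 1 - n ≤
      ({m : ℕ | 0 < m ∧ m ≤ N ∧ (1 + (Real.exp d - 1)) * c0 ≤ c m}.ncard : ℝ) := by
    have h1 : ((N + 1 - n : ℕ) : ℝ) = (N : ℝ) + 1 - n := by
      rw [Nat.cast_sub (by omega)]
      push_cast
      ring
    rw [← h1]
    exact_mod_cast hcard
  refine le_trans ?_ hcard'
  -- `δ N ≤ N + 1 - n`
  have h7 : (n : ℝ) ≤ (N + 1) / θ := by
    rw [le_div_iff₀ hθ0]
    linarith
  have h8 : (N : ℝ) ≥ M := by
    have : M ≤ N := by omega
    exact_mod_cast this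
  have h9 : (|δ| + 2) ≤ (1 - 1 / θ - δ) * N := by
    have := hM.trans h8
    rw [div_le_iff₀ hε] at this
    linarith
  have h10 : (N + 1) / θ = (N : ℝ) * (1 / θ) + 1 / θ := by ring
  have h11 : 1 / θ ≤ 1 := by rw [div_le_one hθ0]; linarith
  have h12 := abs_nonneg δ
  nlinarith

/-- Convergence to the Minkowski-Hlawka value along a set of dimensions of bounded ratio. -/
theorem thin (S : Set ℕ) (r : ℝ) (hr : 1 ≤ r)
    (hS : ∀ᶠ n : ℕ in atTop, ∃ s ∈ S, n ≤ s ∧ (s : ℝ) ≤ r * n)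
    (hlim : Tendsto c (atTop ⊓ 𝓟 S) (𝓝 c0)) : limsup c atTop ≤ r * c0 := by
  have hc0 := c0_pos
  by_contra hcon
  push Not at hcon
  obtain ⟨b, hb1, hb2⟩ := exists_between hcon
  have hr0 : 0 < r := by linarith
  have hb0 : 0 < b := lt_trans (by positivity) hb1
  set d : ℝ := (Real.sqrt (1 / r) - Real.sqrt (c0 / b)) ^ 2 with hd
  have hd0 : 0 < d := by
    have h6 : Real.sqrt (c0 / b) < Real.sqrt (1 / r) := by
      refine Real.sqrt_lt_sqrt (by positivity) ?_
      rw [div_lt_div_iff₀ hb0 hr0]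
      linarith
    exact pow_pos (by linarith) 2
  have hfreq : ∃ᶠ n in atTop, b < c n := frequently_lt_of_lt_limsup isCobounded_c hb2
  have hlt : c0 < c0 * Real.exp d := by
    have := Real.add_one_lt_exp hd0.ne'
    nlinarith
  have hev : ∀ᶠ s in atTop ⊓ 𝓟 S, c s < c0 * Real.exp d := hlim.eventually_lt_const hlt
  rw [eventually_inf_principal] at hev
  obtain ⟨N, hN⟩ := eventually_atTop.1 hev
  obtain ⟨n, hn, hSn, hn0, hnN⟩ := (hfreq.and_eventually
    (hS.and ((eventually_gt_atTop 0).and (eventually_ge_atTop N)))).exists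
  obtain ⟨s, hsS, hns, hsr⟩ := hSn
  have h1 := persist hn0 hns hr0 hb1 hn.le hsr
  have h2 := hN s (hnN.trans hns) hsS
  linarith

end Pool.Agent.Lib.EF_h73
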