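import Pool.Agent.Lib.EF_h73.Layers

/-!
MP_ef2672: lattices with a prescribed section, from random gluing maps and random sublattices of
prime index in the quotient.
-/

namespace Pool.Agent.Lib.EF_h73

open MeasureTheory Filter Topology Matrix
open Pool.Agent.Lib.MP_ef2672_gt_Tauber

lemma qf_neg {n : ℕ} (A : Matrix (Fin n) (Fin n) ℝ) (x : Fin n → ℝ) : qf A (-x) = qf A x := by
  have h := qf_smul A (-1) x
  rw [neg_one_smul] at h
  rw [h]
  norm_num

/-- The layer `u` contains a short vector. -/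
def IsBad {n k : ℕ} (A : Matrix (Fin n) (Fin n) ℝ) (S : Matrix (Fin n) (Fin k) ℝ) (h L : ℝ)
    (u : Fin k → ℤ) : Prop :=
  ∃ w : Fin n → ℤ, qf A ((fun i => (w i : ℝ)) + S.mulVec (fun j => (u j : ℝ))) +
    h ^ 2 * ∑ i, (u i : ℝ) ^ 2 < L

lemma isBad_neg {n k : ℕ} {A : Matrix (Fin n) (Fin n) ℝ} {S : Matrix (Fin n) (Fin k) ℝ} {h L : ℝ}
    {u : Fin k → ℤ} (hu : IsBad A S h L u) : IsBad A S h L (-u) := by
  obtain ⟨w, hw⟩ := hu
  refine ⟨-w, ?_⟩
  have h1 : ((fun i => (((-w) i : ℤ) : ℝ)) + S.mulVec (fun j => (((-u) j : ℤ) : ℝ))) =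
      -((fun i => (w i : ℝ)) + S.mulVec (fun j => (u j : ℝ))) := by
    have h2 : (fun j => (((-u) j : ℤ) : ℝ)) = -(fun j => (u j : ℝ)) := by
      ext j; simp
    rw [h2, Matrix.mulVec_neg]
    ext i
    simp only [Pi.add_apply, Pi.neg_apply]
    push_cast
    ring
  have h3 : ∑ i, ((((-u) i : ℤ) : ℝ)) ^ 2 = ∑ i, (u i : ℝ) ^ 2 := by
    refine Finset.sum_congr rfl fun i _ => ?_
    simp only [Pi.neg_apply]
    push_cast
    ring
  rw [h1, qf_neg, h3]
  exact hw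

lemma norm_lt_of_bad {n k : ℕ} {A : Matrix (Fin n) (Fin n) ℝ} {S : Matrix (Fin n) (Fin k) ℝ}
    {h L : ℝ} {u : Fin k → ℤ} (hu : IsBad A S h L u) : h ^ 2 * ∑ i, (u i : ℝ) ^ 2 < L := by
  obtain ⟨w, hw⟩ := hu
  have := qf_nonneg A ((fun i => (w i : ℝ)) + S.mulVec (fun j => (u j : ℝ)))
  linarith

lemma ne_neg_of_ne_zero {k : ℕ} {u : Fin k → ℤ} (hu : u ≠ 0) : u ≠ -u := by
  intro h
  apply hu
  ext j
  have := congrFun h j
  simp only [Pi.neg_apply] at this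
  simp only [Pi.zero_apply]
  omega

/-- Gluing along the cubic lattice `h ℤᵏ`. -/
theorem exists_glue_one {n k : ℕ} (hn : 0 < n) (A : Matrix (Fin n) (Fin n) ℝ) (hA : A.det ≠ 0)
    {L h : ℝ} (hL : L ≤ minSq A) (hh : 0 < h) (F : Finset (Fin k → ℤ))
    (hF : ∀ u, u ∈ F ↔ u ≠ 0 ∧ h ^ 2 * ∑ i, (u i : ℝ) ^ 2 < L)
    (hsum : ∑ u ∈ F, min 1 (volume.real
      {x : Fin n → ℝ | qf A x < L - h ^ 2 * ∑ i, (u i : ℝ) ^ 2}) < 2) :
    ∃ B : Matrix (Fin (n + k)) (Fin (n + k)) ℝ, |B.det| = |A.det| * h ^ k ∧ L ≤ minSq B := by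
  classical
  obtain ⟨S, hS⟩ := exists_layers A hA L h F (fun u hu => ((hF u).1 hu).1) 2 hsum
  have hnone : ∀ u : Fin k → ℤ, u ≠ 0 → ¬ IsBad A S h L u := by
    intro u hu hbad
    have hmem : ∀ v, v ≠ 0 → IsBad A S h L v → v ∈ F := fun v hv hb =>
      (hF v).2 ⟨hv, norm_lt_of_bad hb⟩
    have h1 := hS {u, -u} (by
      intro v hv
      rw [Finset.mem_insert, Finset.mem_singleton] at hv
      rcases hv with rfl | rfl
      · exact hmem _ hu hbad
      · exact hmem _ (neg_ne_zero.2 hu) (isBad_neg hbad)) (by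
      intro v hv
      rw [Finset.mem_insert, Finset.mem_singleton] at hv
      rcases hv with rfl | rfl
      · exact hbad
      · exact isBad_neg hbad)
    rw [Finset.card_pair (ne_neg_of_ne_zero hu)] at h1
    norm_num at h1
  refine ⟨glue A S 1 h, ?_, le_minSq_glue hn A S 1 h L hL fun v hv => ⟨v, ?_, fun w => ?_⟩⟩
  · rw [glue_det, Matrix.det_one, mul_one, abs_mul, abs_of_pos (pow_pos hh k)]
  · rw [Matrix.one_mulVec]
  · have := hnone v hv
    unfold IsBad at this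
    push Not at this
    exact this w

/-- Gluing along a sublattice of prime index `p` of the cubic lattice `h ℤᵏ`. -/
theorem exists_glue_prime {n k p : ℕ} (hn : 0 < n) (hk : 0 < k) (hp : p.Prime)
    (A : Matrix (Fin n) (Fin n) ℝ) (hA : A.det ≠ 0)
    {L h : ℝ} (hL : L ≤ minSq A) (hh : 0 < h) (hhp : L ≤ h ^ 2 * (p : ℝ) ^ 2)
    (F : Finset (Fin k → ℤ))
    (hF : ∀ u, u ∈ F ↔ u ≠ 0 ∧ h ^ 2 * ∑ i, (u i : ℝ) ^ 2 < L)
    (hsum : ∑ u ∈ F, min 1 (volume.real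
      {x : Fin n → ℝ | qf A x < L - h ^ 2 * ∑ i, (u i : ℝ) ^ 2}) < 2 * p) :
    ∃ B : Matrix (Fin (n + k)) (Fin (n + k)) ℝ, |B.det| = |A.det| * (h ^ k * p) ∧
      L ≤ minSq B := by
  classical
  have hfact : Fact p.Prime := ⟨hp⟩
  have hp0 : (0 : ℤ) < p := by exact_mod_cast hp.pos
  have hp0' : (0 : ℝ) < p := by exact_mod_cast hp.pos
  obtain ⟨S, hS⟩ := exists_layers A hA L h F (fun u hu => ((hF u).1 hu).1) (2 * p) hsum
  set G : Finset (Fin k → ℤ) := F.filter fun u => IsBad A S h L u with hG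
  have hGmem : ∀ u, u ∈ G ↔ u ≠ 0 ∧ IsBad A S h L u := by
    intro u
    rw [hG, Finset.mem_filter, hF]
    exact ⟨fun h => ⟨h.1.1, h.2⟩, fun h => ⟨⟨h.1, norm_lt_of_bad h.2⟩, h.2⟩⟩
  have hcard : G.card < 2 * p := by
    have := hS G (Finset.filter_subset _ _) (fun u hu => ((hGmem u).1 hu).2)
    exact_mod_cast this
  have hmod : ∀ u ∈ G, (fun j => ((u j : ℤ) : ZMod p)) ≠ 0 := by
    intro u hu hzero
    have hdvd : ∀ j, (p : ℤ) ∣ u j := fun j =>
      (ZMod.intCast_zmod_eq_zero_iff_dvd _ _).1 (congrFun hzero j)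
    choose v hv using hdvd
    have hu' := (hGmem u).1 hu
    have hv0 : v ≠ 0 := by
      rintro rfl
      apply hu'.1
      ext j
      rw [hv j]
      simp
    obtain ⟨l, hl⟩ : ∃ l, v l ≠ 0 := by
      by_contra hcon
      push Not at hcon
      exact hv0 (funext hcon)
    have h1 := norm_lt_of_bad hu'.2
    have h2 : (p : ℝ) ^ 2 ≤ ∑ i, (u i : ℝ) ^ 2 := by
      have h3 : (u l : ℝ) ^ 2 ≤ ∑ i, (u i : ℝ) ^ 2 :=
        Finset.single_le_sum (f := fun i => (u i : ℝ) ^ 2) (fun j _ => sq_nonneg _)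
          (Finset.mem_univ l)
      refine le_trans ?_ h3
      have h4 : (1 : ℤ) ≤ (v l) ^ 2 := by
        have := sq_nonneg (v l)
        have h5 : (v l) ^ 2 ≠ 0 := pow_ne_zero 2 hl
        omega
      have h6 : (1 : ℝ) ≤ (v l : ℝ) ^ 2 := by exact_mod_cast h4
      rw [hv l]
      push_cast
      rw [mul_pow]
      nlinarith [sq_nonneg (p : ℝ)]
    have h7 : h ^ 2 * (p : ℝ) ^ 2 ≤ h ^ 2 * ∑ i, (u i : ℝ) ^ 2 :=
      mul_le_mul_of_nonneg_left h2 (sq_nonneg h)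
    linarith
  obtain ⟨a, ha0, ha⟩ := exists_residue hk G
    (fun u hu => (hGmem _).2 ⟨neg_ne_zero.2 ((hGmem u).1 hu).1, isBad_neg ((hGmem u).1 hu).2⟩)
    (fun u hu => ((hGmem u).1 hu).1) hcard hmod
  obtain ⟨l, hl⟩ : ∃ l, a l ≠ 0 := by
    by_contra hcon
    push Not at hcon
    exact ha0 (funext hcon)
  let b : Fin k → ℤ := fun j => ((a l)⁻¹ * a j).val
  have hbl : b l = 1 := by
    simp only [b]
    rw [inv_mul_cancel₀ hl]
    have : Fact (1 < p) := ⟨hp.one_lt⟩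
    rw [ZMod.val_one]
    rfl
  have hb : ∀ j, ((b j : ℤ) : ZMod p) = (a l)⁻¹ * a j := by
    intro j
    simp only [b]
    push_cast
    rw [ZMod.natCast_val, ZMod.cast_id', id]
  refine ⟨glue A S (subMat p l b) h, ?_, le_minSq_glue hn A S _ h L hL fun v hv => ?_⟩
  · rw [glue_det, subMat_det, abs_mul, abs_of_pos (by positivity : (0 : ℝ) < h ^ k * p)]
  · obtain ⟨x, hx1, hx2, hx3⟩ := subMat_mulVec p l b hbl v
    refine ⟨x, hx1, ?_⟩
    have hx0 : x ≠ 0 := by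
      rintro rfl
      apply hv
      ext i
      by_cases hi : i = l
      · simp only [Pi.zero_apply, mul_zero, Finset.sum_const_zero] at hx2
        rw [hi]
        exact (mul_eq_zero.1 hx2.symm).resolve_left hp0.ne'
      · rw [← hx3 i hi]
    have hgood : ¬ IsBad A S h L x := by
      intro hbad
      apply ha x ((hGmem x).2 ⟨hx0, hbad⟩)
      have h5 := congrArg (fun z : ℤ => (z : ZMod p)) hx2
      push_cast at h5
      rw [ZMod.natCast_self, zero_mul] at h5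
      have h6 : ∑ j, ((b j : ℤ) : ZMod p) * ((x j : ℤ) : ZMod p) =
          (a l)⁻¹ * ∑ j, a j * ((x j : ℤ) : ZMod p) := by
        rw [Finset.mul_sum]
        refine Finset.sum_congr rfl fun j _ => ?_
        rw [hb, mul_assoc]
      rw [h5] at h6
      exact (mul_eq_zero.1 h6.symm).resolve_left (inv_ne_zero hl)
    unfold IsBad at hgood
    push Not at hgood
    exact hgood

end Pool.Agent.Lib.EF_h73
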