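import Pool.Agent.Lib.EF_h73.Count

/-!
MP_ef2672: random gluing of the layers of a lattice.
-/

namespace Pool.Agent.Lib.EF_h73

open MeasureTheory Filter Topology Matrix
open Pool.Agent.Lib.MP_ef2672_gt_Tauber

/-- Some gluing map `S` has fewer than `N` layers `u` with a short vector, if the sum of
the probabilities is less than `N`. -/
theorem exists_layers {n k : ℕ} (A : Matrix (Fin n) (Fin n) ℝ) (hA : A.det ≠ 0) (L h : ℝ)
    (F : Finset (Fin k → ℤ)) (hF : ∀ u ∈ F, u ≠ 0) (N : ℝ)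
    (hN : ∑ u ∈ F, min 1 (volume.real
      {x : Fin n → ℝ | qf A x < L - h ^ 2 * ∑ i, (u i : ℝ) ^ 2}) < N) :
    ∃ S : Matrix (Fin n) (Fin k) ℝ, ∀ G : Finset (Fin k → ℤ), G ⊆ F →
      (∀ u ∈ G, ∃ w : Fin n → ℤ,
        qf A ((fun i => (w i : ℝ)) + S.mulVec (fun j => (u j : ℝ))) +
          h ^ 2 * ∑ i, (u i : ℝ) ^ 2 < L) → (G.card : ℝ) < N := by
  classical
  set r : (Fin k → ℤ) → ℝ := fun u => L - h ^ 2 * ∑ i, (u i : ℝ) ^ 2 with hr
  have hlim : Tendsto (fun q : ℕ => ∑ u ∈ F, min 1 ((cnt A (r u) q : ℝ) / (q : ℝ) ^ n)) atTop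
      (𝓝 (∑ u ∈ F, min 1 (volume.real {x : Fin n → ℝ | qf A x < r u}))) :=
    tendsto_finsetSum _ fun u _ => (tendsto_const_nhds).min (cnt_tendsto A hA (r u))
  have hev := hlim.eventually_lt_const hN
  -- a bound for the coordinates
  obtain ⟨M, hM⟩ : ∃ M : ℕ, ∀ u ∈ F, ∀ i, |u i| ≤ M := by
    refine ⟨∑ u ∈ F, ∑ i, (u i).natAbs, fun u hu i => ?_⟩
    have h1 : (u i).natAbs ≤ ∑ i, (u i).natAbs :=
      Finset.single_le_sum (f := fun i => (u i).natAbs) (fun _ _ => Nat.zero_le _)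
        (Finset.mem_univ i)
    have h2 : ∑ i, (u i).natAbs ≤ ∑ u ∈ F, ∑ i, (u i).natAbs :=
      Finset.single_le_sum (f := fun u : Fin k → ℤ => ∑ i, (u i).natAbs)
        (fun _ _ => Nat.zero_le _) hu
    rw [Int.abs_eq_natAbs]
    exact_mod_cast h1.trans h2
  obtain ⟨Q, hQ⟩ := eventually_atTop.1 hev
  obtain ⟨q, hqQ, hqp⟩ := Nat.exists_infinite_primes (max Q (M + 1))
  have hfact : Fact q.Prime := ⟨hqp⟩
  have hsumq := hQ q (le_of_max_le_left hqQ)
  have hqM : M < q := lt_of_lt_of_le (Nat.lt_succ_self M) (le_of_max_le_right hqQ)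
  have hq0 : (0 : ℝ) < q := by exact_mod_cast hqp.pos
  have hmod : ∀ u ∈ F, (fun j => ((u j : ℤ) : ZMod q)) ≠ 0 := by
    intro u hu h0
    apply hF u hu
    ext i
    have h1 : (q : ℤ) ∣ u i := (ZMod.intCast_zmod_eq_zero_iff_dvd _ _).1 (congrFun h0 i)
    have h2 : |u i| < q := lt_of_le_of_lt (hM u hu i) (by exact_mod_cast hqM)
    exact Int.eq_zero_of_abs_lt_dvd h1 h2
  -- the bad residues of a layer
  let Bad : (Fin k → ℤ) → Finset (Fin n → ZMod q) := fun u =>
    (finite_cnt A hA ((q : ℝ) ^ 2 * r u)).toFinset.image (fun y i => ((y i : ℤ) : ZMod q))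
  have hBad1 : ∀ u, (Bad u).card ≤ cnt A (r u) q := by
    intro u
    refine Finset.card_image_le.trans (le_of_eq ?_)
    unfold cnt
    exact (Set.ncard_eq_toFinset_card _ _).symm
  have hBad2 : ∀ u, (Bad u).card ≤ q ^ n := by
    intro u
    refine (Finset.card_le_univ _).trans (le_of_eq ?_)
    rw [Fintype.card_fun, ZMod.card, Fintype.card_fin]
  let U : (Fin n → Fin k → ZMod q) → Finset (Fin k → ℤ) := fun T =>
    F.filter fun u => (fun i => ∑ j, T i j * ((u j : ℤ) : ZMod q)) ∈ Bad u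
  by_contra hcon
  push Not at hcon
  have hlow : ∀ T : Fin n → Fin k → ZMod q, N ≤ ((U T).card : ℝ) := by
    intro T
    obtain ⟨G, hGF, hG, hGN⟩ := hcon (fun i j => ((T i j).val : ℝ) / q)
    refine hGN.trans ?_
    have hsub : G ⊆ U T := by
      intro u hu
      rw [Finset.mem_filter]
      refine ⟨hGF hu, ?_⟩
      obtain ⟨w, hw⟩ := hG u hu
      rw [Finset.mem_image]
      refine ⟨fun i => (q : ℤ) * w i + ∑ j, ((T i j).val : ℤ) * u j, ?_, ?_⟩
      · rw [Set.Finite.mem_toFinset]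
        show qf A _ < (q : ℝ) ^ 2 * r u
        have h1 : (fun i => (((q : ℤ) * w i + ∑ j, ((T i j).val : ℤ) * u j : ℤ) : ℝ)) =
            (q : ℝ) • ((fun i => (w i : ℝ)) + Matrix.mulVec
              (fun i j => ((T i j).val : ℝ) / q : Matrix (Fin n) (Fin k) ℝ)
              (fun j => (u j : ℝ))) := by
          ext i
          simp only [Pi.smul_apply, Pi.add_apply, smul_eq_mul, Matrix.mulVec, dotProduct]
          push_cast
          rw [mul_add, Finset.mul_sum]
          congr 1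
          refine Finset.sum_congr rfl fun j _ => ?_
          field_simp
        rw [h1, qf_smul]
        refine mul_lt_mul_of_pos_left ?_ (by positivity)
        rw [hr]
        simp only
        linarith
      · ext i
        push_cast
        rw [ZMod.natCast_self, zero_mul, zero_add]
        refine Finset.sum_congr rfl fun j _ => ?_
        rw [ZMod.natCast_val, ZMod.cast_id', id]
    exact_mod_cast Finset.card_le_card hsub
  have hsum1 : ∑ T : Fin n → Fin k → ZMod q, (U T).card = ∑ u ∈ F,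
      (Finset.univ.filter fun T : Fin n → Fin k → ZMod q =>
        (fun i => ∑ j, T i j * ((u j : ℤ) : ZMod q)) ∈ Bad u).card := by
    simp only [U, Finset.card_filter]
    exact Finset.sum_comm
  set C : ℝ := (Fintype.card (Fin n → Fin k → ZMod q) : ℝ) with hC
  have hC0 : 0 < C := by
    rw [hC]
    exact_mod_cast Fintype.card_pos
  have hterm : ∀ u ∈ F, ((Finset.univ.filter fun T : Fin n → Fin k → ZMod q =>
        (fun i => ∑ j, T i j * ((u j : ℤ) : ZMod q)) ∈ Bad u).card : ℝ) ≤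
        C * min 1 ((cnt A (r u) q : ℝ) / (q : ℝ) ^ n) := by
    intro u hu
    have h1 := card_fiber (n := n) (fun j => ((u j : ℤ) : ZMod q)) (hmod u hu) (Bad u)
    have h2 : (q : ℝ) ^ n * ((Finset.univ.filter fun T : Fin n → Fin k → ZMod q =>
        (fun i => ∑ j, T i j * ((u j : ℤ) : ZMod q)) ∈ Bad u).card : ℝ) =
        C * ((Bad u).card : ℝ) := by
      rw [hC]
      exact_mod_cast h1
    have hqn : (0 : ℝ) < (q : ℝ) ^ n := by positivity
    have h3 : ((Finset.univ.filter fun T : Fin n → Fin k → ZMod q =>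
        (fun i => ∑ j, T i j * ((u j : ℤ) : ZMod q)) ∈ Bad u).card : ℝ) =
        C * (((Bad u).card : ℝ) / (q : ℝ) ^ n) := by
      field_simp
      linarith
    rw [h3]
    refine mul_le_mul_of_nonneg_left (le_min ?_ ?_) hC0.le
    · rw [div_le_one hqn]
      exact_mod_cast hBad2 u
    · refine div_le_div_of_nonneg_right ?_ hqn.le
      exact_mod_cast hBad1 u
  have hupper : ∑ T : Fin n → Fin k → ZMod q, ((U T).card : ℝ) < C * N := by
    have h1 : ∑ T : Fin n → Fin k → ZMod q, ((U T).card : ℝ) = ∑ u ∈ F,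
      ((Finset.univ.filter fun T : Fin n → Fin k → ZMod q =>
        (fun i => ∑ j, T i j * ((u j : ℤ) : ZMod q)) ∈ Bad u).card : ℝ) := by
      exact_mod_cast hsum1
    rw [h1]
    refine lt_of_le_of_lt (Finset.sum_le_sum hterm) ?_
    rw [← Finset.mul_sum]
    exact mul_lt_mul_of_pos_left hsumq hC0
  have hlower : C * N ≤ ∑ T : Fin n → Fin k → ZMod q, ((U T).card : ℝ) := by
    have h1 : ∑ _T : Fin n → Fin k → ZMod q, N ≤
        ∑ T : Fin n → Fin k → ZMod q, ((U T).card : ℝ) :=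
      Finset.sum_le_sum fun T _ => hlow T
    rwa [Finset.sum_const, Finset.card_univ, nsmul_eq_mul] at h1
  exact absurd hupper (not_lt.2 hlower)

/-- The lattice generated by `A ℤⁿ` and the layers `(A S C v, h C v)`. -/
noncomputable def glue {n k : ℕ} (A : Matrix (Fin n) (Fin n) ℝ) (S : Matrix (Fin n) (Fin k) ℝ)
    (C : Matrix (Fin k) (Fin k) ℝ) (h : ℝ) : Matrix (Fin (n + k)) (Fin (n + k)) ℝ :=
  (Matrix.fromBlocks A (A * (S * C)) 0 (h • C)).submatrix finSumFinEquiv.symm finSumFinEquiv.symm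

lemma glue_det {n k : ℕ} (A : Matrix (Fin n) (Fin n) ℝ) (S : Matrix (Fin n) (Fin k) ℝ)
    (C : Matrix (Fin k) (Fin k) ℝ) (h : ℝ) : (glue A S C h).det = A.det * (h ^ k * C.det) := by
  unfold glue
  rw [Matrix.det_submatrix_equiv_self, Matrix.det_fromBlocks_zero₂₁, Matrix.det_smul,
    Fintype.card_fin]

lemma glue_sq {n k : ℕ} (A : Matrix (Fin n) (Fin n) ℝ) (S : Matrix (Fin n) (Fin k) ℝ)
    (C : Matrix (Fin k) (Fin k) ℝ) (h : ℝ) (w : Fin (n + k) → ℤ) :
    ∑ i, (Matrix.mulVec (glue A S C h) (fun j => (w j : ℝ))) i ^ 2 =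
      qf A ((fun j => (w (Fin.castAdd k j) : ℝ)) +
        S.mulVec (C.mulVec (fun j => (w (Fin.natAdd n j) : ℝ)))) +
      h ^ 2 * ∑ i, (C.mulVec (fun j => (w (Fin.natAdd n j) : ℝ))) i ^ 2 := by
  rw [← finSumFinEquiv.sum_comp, Fintype.sum_sum_type]
  have hA : A.mulVec ((fun j => (w (Fin.castAdd k j) : ℝ)) +
        S.mulVec (C.mulVec (fun j => (w (Fin.natAdd n j) : ℝ)))) =
      A.mulVec (fun j => (w (Fin.castAdd k j) : ℝ)) +
        (A * (S * C)).mulVec (fun j => (w (Fin.natAdd n j) : ℝ)) := by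
    rw [Matrix.mulVec_add, Matrix.mulVec_mulVec, Matrix.mulVec_mulVec, Matrix.mul_assoc]
  congr 1
  · unfold qf
    rw [hA]
    refine Finset.sum_congr rfl fun i _ => ?_
    congr 1
    rw [Matrix.mulVec, dotProduct, ← finSumFinEquiv.sum_comp, Fintype.sum_sum_type]
    simp [glue, Matrix.mulVec, dotProduct]
  · rw [Finset.mul_sum]
    refine Finset.sum_congr rfl fun i _ => ?_
    rw [← mul_pow]
    congr 1
    rw [Matrix.mulVec, dotProduct, ← finSumFinEquiv.sum_comp, Fintype.sum_sum_type]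
    simp [glue, Matrix.mulVec, dotProduct, Finset.mul_sum, mul_assoc]

/-- The minimum of a glued lattice. -/
lemma le_minSq_glue {n k : ℕ} (hn : 0 < n) (A : Matrix (Fin n) (Fin n) ℝ)
    (S : Matrix (Fin n) (Fin k) ℝ) (C : Matrix (Fin k) (Fin k) ℝ) (h L : ℝ)
    (hL : L ≤ minSq A)
    (hC : ∀ v : Fin k → ℤ, v ≠ 0 → ∃ x : Fin k → ℤ,
      (C.mulVec (fun j => (v j : ℝ))) = (fun i => (x i : ℝ)) ∧
      ∀ w : Fin n → ℤ, L ≤ qf A ((fun i => (w i : ℝ)) + S.mulVec (fun j => (x j : ℝ))) +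
          h ^ 2 * ∑ i, (x i : ℝ) ^ 2) :
    L ≤ minSq (glue A S C h) := by
  refine le_minSq (by omega) _ fun w hw => ?_
  rw [glue_sq]
  by_cases h1 : (fun j => w (Fin.natAdd n j)) = 0
  · have h2 : (fun j => w (Fin.castAdd k j)) ≠ 0 := by
      intro h2
      apply hw
      ext i
      refine Fin.addCases (fun j => ?_) (fun j => ?_) i
      · exact congrFun h2 j
      · exact congrFun h1 j
    have h3 := minSq_le A (fun j => w (Fin.castAdd k j)) h2
    have h4 : (fun j => (w (Fin.natAdd n j) : ℝ)) = 0 := by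
      ext j
      have := congrFun h1 j
      simp only [Pi.zero_apply] at this ⊢
      rw [this]
      simp
    rw [h4, Matrix.mulVec_zero, Matrix.mulVec_zero, add_zero]
    simp only [Pi.zero_apply]
    refine hL.trans (h3.trans (le_of_eq ?_))
    simp [qf]
  · obtain ⟨x, hx1, hx2⟩ := hC (fun j => w (Fin.natAdd n j)) h1
    rw [hx1]
    exact hx2 (fun j => w (Fin.castAdd k j))

end Pool.Agent.Lib.EF_h73
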