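import Pool.Agent.Lib.EF_h73.Glue

/-!
MP_ef2672: `γ_n^n ≤ γ_{n+k}^{n+k} (2πe a / k)^k`, `a = 1 - n / (2πe γ_n)`, for `k ≤ 2πe γ_n - n`.
-/

namespace Pool.Agent.Lib.EF_h73

open MeasureTheory Filter Topology
open Pool.Agent.Lib.MP_ef2672_gt_Tauber

/-- The finite set of layers that can contain short vectors. -/
lemma exists_layer_set {k : ℕ} {L h : ℝ} (hh : 0 < h) :
    ∃ (F : Finset (Fin k → ℤ)) (N : ℕ),
      (∀ u, u ∈ F ↔ u ≠ 0 ∧ h ^ 2 * ∑ i, (u i : ℝ) ^ 2 < L) ∧
      F ⊆ (Fintype.piFinset fun _ : Fin k => Finset.Icc (-(N : ℤ)) N).erase 0 := by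
  classical
  obtain ⟨N, hN⟩ := exists_nat_ge (L / h ^ 2 + 1)
  have hbox : ∀ u : Fin k → ℤ, h ^ 2 * ∑ i, (u i : ℝ) ^ 2 < L →
      u ∈ Fintype.piFinset fun _ : Fin k => Finset.Icc (-(N : ℤ)) N := by
    intro u hu
    rw [Fintype.mem_piFinset]
    intro i
    rw [Finset.mem_Icc, ← abs_le]
    have h1 : (u i : ℝ) ^ 2 ≤ ∑ i, (u i : ℝ) ^ 2 :=
      Finset.single_le_sum (f := fun i => (u i : ℝ) ^ 2) (fun j _ => sq_nonneg _)
        (Finset.mem_univ i)
    have h2 : ∑ i, (u i : ℝ) ^ 2 < L / h ^ 2 := by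
      rw [lt_div_iff₀ (by positivity)]
      linarith
    have h3 : |(u i : ℝ)| ≤ (u i : ℝ) ^ 2 + 1 := by
      rw [← sq_abs]
      nlinarith [sq_nonneg (|(u i : ℝ)| - 1), abs_nonneg (u i : ℝ)]
    have h4 : |(u i : ℝ)| ≤ N := by linarith
    have h5 : ((|u i| : ℤ) : ℝ) ≤ ((N : ℤ) : ℝ) := by
      push_cast
      exact h4
    exact_mod_cast h5
  refine ⟨(Fintype.piFinset fun _ : Fin k => Finset.Icc (-(N : ℤ)) N).filter
    fun u => u ≠ 0 ∧ h ^ 2 * ∑ i, (u i : ℝ) ^ 2 < L, N, fun u => ?_, fun u hu => ?_⟩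
  · rw [Finset.mem_filter]
    exact ⟨fun h => h.2, fun h => ⟨hbox u h.2, h⟩⟩
  · rw [Finset.mem_filter] at hu
    rw [Finset.mem_erase]
    exact ⟨hu.2.1, hu.1⟩

/-- The sum of the exponential weights of the layers. -/
lemma layer_sum_le {k N : ℕ} {L h β a : ℝ} (hL : 0 < L) (hh : 0 < h) (hβ : 0 < β)
    (F : Finset (Fin k → ℤ))
    (hF : F ⊆ (Fintype.piFinset fun _ : Fin k => Finset.Icc (-(N : ℤ)) N).erase 0) :
    ∑ u ∈ F, Real.exp (β * (a - h ^ 2 * (∑ i, (u i : ℝ) ^ 2) / L)) ≤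
      Real.exp (β * a) * ((1 + Real.sqrt (Real.pi * L / β) / h) ^ k - 1) := by
  classical
  set t : ℝ := β * h ^ 2 / L with ht
  have ht0 : 0 < t := by positivity
  have h1 : ∀ u : Fin k → ℤ, Real.exp (β * (a - h ^ 2 * (∑ i, (u i : ℝ) ^ 2) / L)) =
      Real.exp (β * a) * Real.exp (-t * ∑ i, (u i : ℝ) ^ 2) := by
    intro u
    rw [← Real.exp_add]
    congr 1
    rw [ht]
    ring
  simp_rw [h1]
  rw [← Finset.mul_sum]
  refine mul_le_mul_of_nonneg_left ?_ (Real.exp_pos _).le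
  refine (Finset.sum_le_sum_of_subset_of_nonneg hF fun _ _ _ => (Real.exp_pos _).le).trans ?_
  have h0 : (0 : Fin k → ℤ) ∈ Fintype.piFinset fun _ : Fin k => Finset.Icc (-(N : ℤ)) N := by
    rw [Fintype.mem_piFinset]
    intro i
    rw [Finset.mem_Icc]
    simp
  have h2 := Finset.add_sum_erase _ (fun u : Fin k → ℤ => Real.exp (-t * ∑ i, (u i : ℝ) ^ 2)) h0
  have h3 := gauss_box_le k t ht0 N
  have h4 : Real.sqrt (Real.pi / t) = Real.sqrt (Real.pi * L / β) / h := by
    have : Real.pi / t = Real.pi * L / β / h ^ 2 := by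
      rw [ht]; field_simp
    rw [this, Real.sqrt_div (by positivity), Real.sqrt_sq hh.le]
  rw [h4] at h3
  simp only [Pi.zero_apply, Int.cast_zero] at h2
  have h5 : Real.exp (-t * ∑ _i : Fin k, (0 : ℝ) ^ 2) = 1 := by simp
  rw [h5] at h2
  linarith

/-- The probability that a layer at squared height `s` (in units of the minimum) is bad. -/
lemma prob_le {n : ℕ} (hn : 0 < n) (A : Matrix (Fin n) (Fin n) ℝ) (hA : A.det ≠ 0)
    (hL : 0 < minSq A) {x a β : ℝ} (hx : x = 2 * Real.pi * Real.exp 1 * gamma n / n)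
    (hx0 : 0 < x) (ha : a = 1 - 1 / x) (hβ0 : 0 ≤ β) (hβ : β ≤ n * x / 2) (s : ℝ) :
    min 1 (volume.real {y : Fin n → ℝ | qf A y < minSq A * (1 - s)}) ≤
      Real.exp (β * (a - s)) := by
  have h1 := vol_le_exp hn A hA hL s
  rw [← hx] at h1
  have h2 : (n : ℝ) / 2 * (x * (1 - s) - 1) = n * x / 2 * (a - s) := by
    rw [ha]
    field_simp
    ring
  rw [h2] at h1
  rcases le_total a s with h | h
  · refine (min_le_right _ _).trans (h1.trans (Real.exp_le_exp.2 ?_))
    nlinarith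
  · refine (min_le_left _ _).trans (Real.one_le_exp ?_)
    exact mul_nonneg hβ0 (by linarith)

/-- The lattice with prescribed section: `L` is the minimum of `A`. -/
theorem exists_ext {n k : ℕ} (hn : 0 < n) (hk : 0 < k) (A : Matrix (Fin n) (Fin n) ℝ)
    (hA : A.det ≠ 0) (hL : 0 < minSq A) {x a : ℝ}
    (hx : x = 2 * Real.pi * Real.exp 1 * gamma n / n) (ha : a = 1 - 1 / x)
    (hkx : (k : ℝ) ≤ n * (x - 1)) :
    ∃ B : Matrix (Fin (n + k)) (Fin (n + k)) ℝ,
      |B.det| = |A.det| * (Real.sqrt (2 * Real.pi * Real.exp 1 * a * minSq A / k)) ^ k ∧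
      minSq A ≤ minSq B := by
  have hn0 : (0 : ℝ) < n := by exact_mod_cast hn
  have hk0 : (0 : ℝ) < k := by exact_mod_cast hk
  have hx1 : 1 < x := by
    by_contra hcon
    push Not at hcon
    nlinarith
  have hx0 : 0 < x := by linarith
  have ha0 : 0 < a := by
    rw [ha, sub_pos, div_lt_one hx0]
    exact hx1
  set L := minSq A with hLdef
  set β : ℝ := k / (2 * a) with hβ
  have hβ0 : 0 < β := by positivity
  have hβx : β ≤ n * x / 2 := by
    rw [hβ, div_le_div_iff₀ (by positivity) (by norm_num)]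
    have : n * x * (2 * a) = 2 * (n * (x - 1)) := by
      rw [ha]
      field_simp
    rw [this]
    linarith
  have hβa : β * a = k / 2 := by
    rw [hβ]; field_simp
  set ρ : ℝ := Real.sqrt (2 * Real.pi * Real.exp 1 * a * L / k) with hρ
  have hρ0 : 0 < ρ := Real.sqrt_pos.2 (by positivity)
  have hR : Real.sqrt (Real.pi * L / β) = ρ * Real.exp (-(1 / 2)) := by
    have h1 : Real.pi * L / β = (ρ * Real.exp (-(1 / 2))) ^ 2 := by
      rw [mul_pow, hρ, Real.sq_sqrt (by positivity), ← Real.exp_nat_mul, hβ]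
      have h2 : Real.exp (((2 : ℕ) : ℝ) * -(1 / 2)) = (Real.exp 1)⁻¹ := by
        rw [← Real.exp_neg]
        congr 1
        norm_num
      rw [h2]
      field_simp
    rw [h1, Real.sqrt_sq (by positivity)]
  -- the sum of the probabilities
  have key : ∀ h : ℝ, 0 < h → ∃ F : Finset (Fin k → ℤ),
      (∀ u, u ∈ F ↔ u ≠ 0 ∧ h ^ 2 * ∑ i, (u i : ℝ) ^ 2 < L) ∧
      ∑ u ∈ F, min 1 (volume.real
        {y : Fin n → ℝ | qf A y < L - h ^ 2 * ∑ i, (u i : ℝ) ^ 2}) ≤
        Real.exp (k / 2) * ((1 + ρ * Real.exp (-(1 / 2)) / h) ^ k - 1) := by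
    intro h hh
    obtain ⟨F, N, hF, hFN⟩ := exists_layer_set (k := k) (L := L) hh
    refine ⟨F, hF, ?_⟩
    rw [← hR, ← hβa]
    refine le_trans (Finset.sum_le_sum fun u _ => ?_) (layer_sum_le hL hh hβ0 F hFN)
    have h1 := prob_le hn A hA hL hx hx0 ha hβ0.le hβx (h ^ 2 * (∑ i, (u i : ℝ) ^ 2) / L)
    have h2 : minSq A * (1 - h ^ 2 * (∑ i, (u i : ℝ) ^ 2) / L) =
        L - h ^ 2 * ∑ i, (u i : ℝ) ^ 2 := by
      rw [← hLdef]
      field_simp
    rw [h2] at h1
    exact h1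
  rcases Nat.lt_or_ge 1 k with hk1 | hk1
  · -- `k ≥ 2`: a sublattice of large prime index
    have hk1' : (1 : ℝ) / k ≠ 0 := by positivity
    have hy : Tendsto (fun p : ℕ => ((p : ℝ)) ^ ((1 : ℝ) / k)) atTop atTop :=
      (tendsto_rpow_atTop (by positivity)).comp tendsto_natCast_atTop_atTop
    have hlim : Tendsto (fun y : ℝ => (1 + Real.exp (1 / 2) / y) ^ k) atTop (𝓝 1) := by
      have h1 : Tendsto (fun y : ℝ => Real.exp (1 / 2) / y) atTop (𝓝 0) :=
        tendsto_const_nhds.div_atTop tendsto_id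
      have h2 := (tendsto_const_nhds (x := (1 : ℝ)).add h1).pow k
      simpa using h2
    have hev1 : ∀ᶠ y : ℝ in atTop, (1 + Real.exp (1 / 2) / y) ^ k < 2 :=
      hlim.eventually_lt_const (by norm_num)
    have hev2 : ∀ᶠ y : ℝ in atTop, Real.sqrt L / ρ + 1 ≤ y := eventually_ge_atTop _
    have hev := hy.eventually (hev1.and hev2)
    obtain ⟨P, hP⟩ := eventually_atTop.1 hev
    obtain ⟨p, hpP, hp⟩ := Nat.exists_infinite_primes P
    obtain ⟨hy1, hy2⟩ := hP p hpP
    have hp0 : (0 : ℝ) < p := by exact_mod_cast hp.pos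
    set y : ℝ := (p : ℝ) ^ ((1 : ℝ) / k) with hydef
    have hy0 : 0 < y := Real.rpow_pos_of_pos hp0 _
    have hyk : y ^ k = p := by
      rw [hydef, ← Real.rpow_natCast, ← Real.rpow_mul hp0.le, one_div,
        inv_mul_cancel₀ hk0.ne', Real.rpow_one]
    have hh0 : 0 < ρ / y := by positivity
    obtain ⟨F, hF, hsum⟩ := key (ρ / y) hh0
    have hone : 1 ≤ y := by
      have : 0 ≤ Real.sqrt L / ρ := by positivity
      linarith
    have hyp : y ^ 2 ≤ p := by
      rw [← hyk]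
      exact pow_le_pow_right₀ hone hk1
    have hhp : L ≤ (ρ / y) ^ 2 * (p : ℝ) ^ 2 := by
      have h1 : Real.sqrt L ≤ ρ * y := by
        have h2 : Real.sqrt L / ρ ≤ y := by linarith
        rw [div_le_iff₀ hρ0] at h2
        linarith
      have h3 : Real.sqrt L ≤ ρ / y * p := by
        refine h1.trans ?_
        rw [div_mul_eq_mul_div, le_div_iff₀ hy0]
        nlinarith
      have h4 := pow_le_pow_left₀ (Real.sqrt_nonneg L) h3 2
      rw [Real.sq_sqrt hL.le, mul_pow] at h4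
      exact h4
    have hsum2 : Real.exp (k / 2) * ((1 + ρ * Real.exp (-(1 / 2)) / (ρ / y)) ^ k - 1) <
        2 * p := by
      have h1 : ρ * Real.exp (-(1 / 2)) / (ρ / y) = Real.exp (-(1 / 2)) * y := by
        field_simp
      rw [h1]
      have h2 : Real.exp (k / 2) * (1 + Real.exp (-(1 / 2)) * y) ^ k =
          p * (1 + Real.exp (1 / 2) / y) ^ k := by
        have h3 : Real.exp ((k : ℝ) / 2) = Real.exp (1 / 2) ^ k := by
          rw [← Real.exp_nat_mul]; congr 1; ring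
        rw [h3, ← mul_pow, ← hyk, ← mul_pow]
        congr 1
        have h4 : Real.exp (1 / 2) * Real.exp (-(1 / 2)) = 1 := by
          rw [← Real.exp_add]; simp
        field_simp
        linear_combination y * h4
      have h5 : (p : ℝ) * (1 + Real.exp (1 / 2) / y) ^ k < p * 2 :=
        mul_lt_mul_of_pos_left hy1 hp0
      have h6 := Real.exp_pos ((k : ℝ) / 2)
      nlinarith
    obtain ⟨B, hB1, hB2⟩ := exists_glue_prime hn hk hp A hA (le_of_eq hLdef) hh0 hhp F hF
      (lt_of_le_of_lt hsum hsum2)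
    refine ⟨B, ?_, hB2⟩
    rw [hB1]
    congr 1
    rw [div_pow, hyk]
    field_simp
  · -- `k = 1`
    have hk1 : k = 1 := by omega
    obtain ⟨F, hF, hsum⟩ := key ρ hρ0
    have hsum2 : Real.exp (k / 2) * ((1 + ρ * Real.exp (-(1 / 2)) / ρ) ^ k - 1) < 2 := by
      have h1 : ρ * Real.exp (-(1 / 2)) / ρ = Real.exp (-(1 / 2)) := by field_simp
      rw [h1, hk1]
      have h4 : Real.exp (1 / 2) * Real.exp (-(1 / 2)) = 1 := by
        rw [← Real.exp_add]; simp
      push_cast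
      rw [pow_one, add_sub_cancel_left, h4]
      norm_num
    exact exists_glue_one hn A hA (le_of_eq hLdef) hρ0 F hF (lt_of_le_of_lt hsum hsum2)

/-- The exact inequality between Hermite's constants. -/
theorem gamma_pow_le {n k : ℕ} (hn : 0 < n) (hk : 0 < k)
    (hkn : (n : ℝ) + k ≤ 2 * Real.pi * Real.exp 1 * gamma n) :
    gamma n ^ n ≤ gamma (n + k) ^ (n + k) *
      (2 * Real.pi * Real.exp 1 * (1 - n / (2 * Real.pi * Real.exp 1 * gamma n)) / k) ^ k := by
  have hn0 : (0 : ℝ) < n := by exact_mod_cast hn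
  have hk0 : (0 : ℝ) < k := by exact_mod_cast hk
  have he : 0 < 2 * Real.pi * Real.exp 1 := by positivity
  have hg0 : 0 < gamma n := by
    by_contra hcon
    push Not at hcon
    nlinarith
  set x : ℝ := 2 * Real.pi * Real.exp 1 * gamma n / n with hx
  have hx0 : 0 < x := by positivity
  have hkx : (k : ℝ) ≤ n * (x - 1) := by
    have : n * (x - 1) = 2 * Real.pi * Real.exp 1 * gamma n - n := by
      rw [hx]; field_simp
    rw [this]; linarith
  have hx1 : 1 < x := by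
    by_contra hcon
    push Not at hcon
    nlinarith
  have ha : (1 : ℝ) - n / (2 * Real.pi * Real.exp 1 * gamma n) = 1 - 1 / x := by
    rw [hx, one_div_div]
  rw [ha]
  set a : ℝ := 1 - 1 / x with ha'
  have ha0 : 0 < a := by
    rw [ha', sub_pos, div_lt_one hx0]
    exact hx1
  set K : ℝ := gamma (n + k) ^ (n + k) * (2 * Real.pi * Real.exp 1 * a / k) ^ k with hK
  have hK0 : 0 ≤ K := by
    rw [hK]
    exact mul_nonneg (pow_nonneg (gamma_nonneg _) _) (by positivity)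
  have hle : gamma n ≤ K ^ ((1 : ℝ) / n) := by
    have : Nonempty {A : Matrix (Fin n) (Fin n) ℝ // A.det ≠ 0} := nonempty_mat n
    refine ciSup_le fun A => ?_
    obtain ⟨A, hA⟩ := A
    rcases (minSq_nonneg A).eq_or_lt with h0 | hL
    · have h1 : inv A = 0 := by unfold inv; rw [← h0, zero_div]
      rw [h1]
      positivity
    have hA0 : 0 < |A.det| := abs_pos.2 hA
    obtain ⟨B, hB1, hB2⟩ := exists_ext hn hk A hA hL hx ha' hkx
    set L := minSq A with hLdef
    set ρ : ℝ := Real.sqrt (2 * Real.pi * Real.exp 1 * a * L / k) with hρ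
    have hρ0 : 0 < ρ := Real.sqrt_pos.2 (by positivity)
    have hB0 : 0 < |B.det| := by rw [hB1]; positivity
    have h1 := inv_le_gamma (by omega) B (abs_pos.1 hB0)
    unfold inv at h1
    rw [div_le_iff₀ (Real.rpow_pos_of_pos hB0 _)] at h1
    have h2 : L ≤ gamma (n + k) * |B.det| ^ ((2 : ℝ) / ((n + k : ℕ) : ℝ)) := hB2.trans h1
    have hm0 : (0 : ℝ) < ((n + k : ℕ) : ℝ) := by push_cast; positivity
    have h3 : L ^ (n + k) ≤ gamma (n + k) ^ (n + k) * |B.det| ^ 2 := by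
      calc L ^ (n + k) ≤
            (gamma (n + k) * |B.det| ^ ((2 : ℝ) / ((n + k : ℕ) : ℝ))) ^ (n + k) :=
            pow_le_pow_left₀ hL.le h2 _
        _ = _ := by
          rw [mul_pow, ← Real.rpow_natCast (|B.det| ^ ((2 : ℝ) / ((n + k : ℕ) : ℝ))) (n + k),
            ← Real.rpow_mul hB0.le]
          congr 1
          rw [div_mul_cancel₀ _ hm0.ne']
          norm_num
    have h4 : |B.det| ^ 2 = |A.det| ^ 2 * ((2 * Real.pi * Real.exp 1 * a / k) ^ k * L ^ k) := by
      rw [hB1, mul_pow, ← pow_mul, mul_comm k 2, pow_mul, hρ, Real.sq_sqrt (by positivity),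
        ← mul_pow]
      congr 2
      ring
    have h5 : L ^ n ≤ K * |A.det| ^ 2 := by
      have h6 : L ^ n * L ^ k ≤ (K * |A.det| ^ 2) * L ^ k := by
        rw [← pow_add]
        refine h3.trans (le_of_eq ?_)
        rw [h4, hK]
        ring
      exact le_of_mul_le_mul_right h6 (by positivity)
    have h7 : inv A ^ n ≤ K := by
      unfold inv
      rw [← hLdef, div_pow, ← Real.rpow_natCast (|A.det| ^ ((2 : ℝ) / n)) n,
        ← Real.rpow_mul hA0.le, div_mul_cancel₀ _ hn0.ne', div_le_iff₀ (by positivity)]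
      refine h5.trans (le_of_eq ?_)
      norm_num
    calc inv A = (inv A ^ n) ^ ((1 : ℝ) / n) := by
          rw [← Real.rpow_natCast, ← Real.rpow_mul (inv_nonneg A), mul_one_div_cancel hn0.ne',
            Real.rpow_one]
      _ ≤ K ^ ((1 : ℝ) / n) :=
          Real.rpow_le_rpow (pow_nonneg (inv_nonneg A) _) h7 (by positivity)
  calc gamma n ^ n ≤ (K ^ ((1 : ℝ) / n)) ^ n := pow_le_pow_left₀ hg0.le hle n
    _ = K := by
      rw [← Real.rpow_natCast, ← Real.rpow_mul hK0, one_div_mul_cancel hn0.ne', Real.rpow_one]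

end Pool.Agent.Lib.EF_h73
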