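import Pool.Agent.Lib.MP_ef2672_gt_Tauber.Super

/-!
MP_ef2672: volumes of ellipsoids and the number of lattice points in them.
-/

namespace Pool.Agent.Lib.EF_h73

open MeasureTheory Filter Topology Matrix
open Pool.Agent.Lib.MP_ef2672_gt_Tauber

/-- The squared length `‖A x‖²` for a real vector `x`. -/
noncomputable def qf {n : ℕ} (A : Matrix (Fin n) (Fin n) ℝ) (x : Fin n → ℝ) : ℝ :=
  ∑ i, (A.mulVec x) i ^ 2

lemma qf_nonneg {n : ℕ} (A : Matrix (Fin n) (Fin n) ℝ) (x : Fin n → ℝ) : 0 ≤ qf A x :=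
  Finset.sum_nonneg fun _ _ => sq_nonneg _

lemma qf_smul {n : ℕ} (A : Matrix (Fin n) (Fin n) ℝ) (t : ℝ) (x : Fin n → ℝ) :
    qf A (t • x) = t ^ 2 * qf A x := by
  unfold qf
  rw [Matrix.mulVec_smul, Finset.mul_sum]
  exact Finset.sum_congr rfl fun i _ => by rw [Pi.smul_apply, smul_eq_mul, mul_pow]

lemma continuous_qf {n : ℕ} (A : Matrix (Fin n) (Fin n) ℝ) : Continuous (qf A) := by
  unfold qf
  refine continuous_finsetSum _ fun i _ => ?_
  refine Continuous.pow ?_ 2
  exact (continuous_apply i).comp (Continuous.matrix_mulVec continuous_const continuous_id)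

/-- Chernoff bound for the volume of a ball. -/
lemma vol_ball_le {n : ℕ} (r κ : ℝ) (hκ : 0 < κ) :
    volume {x : Fin n → ℝ | ∑ i, x i ^ 2 < r} ≤
      ENNReal.ofReal (Real.exp (κ * r) * (Real.sqrt (Real.pi / κ)) ^ n) := by
  set g : (Fin n → ℝ) → ℝ := fun x => Real.exp (κ * r) * ∏ i, Real.exp (-κ * x i ^ 2) with hg
  have hint1 : Integrable (fun x : ℝ => Real.exp (-κ * x ^ 2)) := integrable_exp_neg_mul_sq hκ
  have hint : Integrable g := by
    refine Integrable.const_mul ?_ _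
    exact Integrable.fintype_prod (f := fun _ x => Real.exp (-κ * x ^ 2)) (fun _ => hint1)
  have hval : ∫ x, g x = Real.exp (κ * r) * (Real.sqrt (Real.pi / κ)) ^ n := by
    rw [hg]
    rw [integral_const_mul]
    congr 1
    rw [integral_fintype_prod_volume_eq_pow (fun x : ℝ => Real.exp (-κ * x ^ 2)),
      integral_gaussian, Fintype.card_fin]
  have hg0 : ∀ x, 0 ≤ g x := fun x => by
    rw [hg]; positivity
  have hS : MeasurableSet {x : Fin n → ℝ | ∑ i, x i ^ 2 < r} := by
    refine measurableSet_lt ?_ measurable_const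
    exact Finset.measurable_sum _ fun i _ => (measurable_pi_apply i).pow_const 2
  rw [← hval, ofReal_integral_eq_lintegral_ofReal hint (Filter.Eventually.of_forall hg0),
    ← lintegral_indicator_one hS]
  refine lintegral_mono fun x => ?_
  by_cases hx : x ∈ {x : Fin n → ℝ | ∑ i, x i ^ 2 < r}
  · rw [Set.indicator_of_mem hx]
    simp only [Pi.one_apply]
    rw [← ENNReal.ofReal_one]
    refine ENNReal.ofReal_le_ofReal ?_
    rw [hg]
    simp only
    rw [← Real.exp_sum, ← Real.exp_add]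
    refine Real.one_le_exp ?_
    rw [← Finset.mul_sum]
    have hx' : ∑ i, x i ^ 2 < r := hx
    nlinarith
  · rw [Set.indicator_of_notMem hx]
    exact zero_le

lemma vol_ellipsoid {n : ℕ} (A : Matrix (Fin n) (Fin n) ℝ) (hA : A.det ≠ 0) (r : ℝ) :
    volume {x : Fin n → ℝ | qf A x < r} =
      ENNReal.ofReal |A.det|⁻¹ * volume {x : Fin n → ℝ | ∑ i, x i ^ 2 < r} := by
  have h := Measure.addHaar_preimage_linearMap (μ := (volume : Measure (Fin n → ℝ)))
    (f := Matrix.toLin' A) (by rwa [LinearMap.det_toLin'])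
    {x : Fin n → ℝ | ∑ i, x i ^ 2 < r}
  rw [LinearMap.det_toLin', abs_inv] at h
  rw [← h]
  rfl

lemma vol_ell_le {n : ℕ} (A : Matrix (Fin n) (Fin n) ℝ) (hA : A.det ≠ 0) (r κ : ℝ) (hκ : 0 < κ) :
    volume.real {x : Fin n → ℝ | qf A x < r} ≤
      Real.exp (κ * r) * (Real.sqrt (Real.pi / κ)) ^ n / |A.det| := by
  have hA0 : 0 < |A.det| := abs_pos.2 hA
  rw [Measure.real, vol_ellipsoid A hA r]
  refine ENNReal.toReal_le_of_le_ofReal (by positivity) ?_
  refine (mul_le_mul_right (vol_ball_le (n := n) r κ hκ) _).trans ?_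
  rw [← ENNReal.ofReal_mul (by positivity)]
  refine ENNReal.ofReal_le_ofReal (le_of_eq ?_)
  field_simp

/-- The volume bound in terms of Hermite's constant: `s` is the squared length in units of the
minimum. -/
lemma vol_le_exp {n : ℕ} (hn : 0 < n) (A : Matrix (Fin n) (Fin n) ℝ) (hA : A.det ≠ 0)
    (hL : 0 < minSq A) (s : ℝ) :
    volume.real {x : Fin n → ℝ | qf A x < minSq A * (1 - s)} ≤
      Real.exp ((n : ℝ) / 2 * (2 * Real.pi * Real.exp 1 * gamma n / n * (1 - s) - 1)) := by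
  have hn0 : (0 : ℝ) < n := by exact_mod_cast hn
  have hA0 : 0 < |A.det| := abs_pos.2 hA
  set L := minSq A with hLdef
  set g := gamma n with hg
  have h1 : L / |A.det| ^ ((2 : ℝ) / n) ≤ g := inv_le_gamma hn A hA
  have hg0 : 0 < g := lt_of_lt_of_le (by positivity) h1
  have h2 : L ≤ g * |A.det| ^ ((2 : ℝ) / n) := by
    rwa [div_le_iff₀ (by positivity)] at h1
  have h3 : L ^ n ≤ g ^ n * |A.det| ^ 2 := by
    calc L ^ n ≤ (g * |A.det| ^ ((2 : ℝ) / n)) ^ n := pow_le_pow_left₀ hL.le h2 n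
      _ = g ^ n * |A.det| ^ 2 := by
        rw [mul_pow, ← Real.rpow_natCast (|A.det| ^ ((2 : ℝ) / n)) n, ← Real.rpow_mul hA0.le]
        congr 1
        rw [div_mul_cancel₀ _ hn0.ne']
        norm_num
  set κ : ℝ := Real.pi * Real.exp 1 * g / L with hκ
  have hκ0 : 0 < κ := by positivity
  refine (vol_ell_le A hA (L * (1 - s)) κ hκ0).trans ?_
  have h4 : Real.pi / κ = L / g * Real.exp (-1) := by
    rw [hκ, Real.exp_neg]
    field_simp
  have h5 : (Real.sqrt (Real.pi / κ)) ^ n ≤ |A.det| * Real.exp (-((n : ℝ) / 2)) := by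
    refine (sq_le_sq₀ (by positivity) (by positivity)).1 ?_
    rw [← pow_mul, mul_comm n 2, pow_mul, Real.sq_sqrt (by positivity), h4, mul_pow, mul_pow,
      div_pow, ← Real.exp_nat_mul, ← Real.exp_nat_mul]
    have h6 : L ^ n / g ^ n ≤ |A.det| ^ 2 := by
      rw [div_le_iff₀ (by positivity)]
      linarith [h3]
    have h7 : Real.exp ((n : ℝ) * -1) = Real.exp (((2 : ℕ) : ℝ) * -((n : ℝ) / 2)) := by
      congr 1; push_cast; ring
    rw [h7]
    exact mul_le_mul_of_nonneg_right h6 (Real.exp_pos _).le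
  have h8 : Real.exp (κ * (L * (1 - s))) * (Real.sqrt (Real.pi / κ)) ^ n / |A.det| ≤
      Real.exp (κ * (L * (1 - s))) * Real.exp (-((n : ℝ) / 2)) := by
    rw [div_le_iff₀ hA0]
    calc Real.exp (κ * (L * (1 - s))) * (Real.sqrt (Real.pi / κ)) ^ n
        ≤ Real.exp (κ * (L * (1 - s))) * (|A.det| * Real.exp (-((n : ℝ) / 2))) :=
          mul_le_mul_of_nonneg_left h5 (Real.exp_pos _).le
      _ = _ := by ring
  refine h8.trans (le_of_eq ?_)
  rw [← Real.exp_add]
  congr 1
  rw [hκ]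
  field_simp
  ring

end Pool.Agent.Lib.EF_h73
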